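import Pool.Agent.Y315.NL.Stm

/-!
A doubly periodic solution with zero mean on all small rectangles vanishes.
-/

set_option autoImplicit false

open MeasureTheory Set Filter Topology intervalIntegral
open scoped ContDiff

noncomputable section

namespace Pool.Agent.H70NL

open Pool.Agent.Y315.NL

/-- the iterated integral over a rectangle -/
def D (a b c d : ℝ) (g : ℝ × ℝ → ℝ) : ℝ := ∫ y in c..d, ∫ x in a..b, g (x, y)

theorem cin {g : ℝ × ℝ → ℝ} (hg : Continuous g) (a b : ℝ) :
    Continuous fun y => ∫ x in a..b, g (x, y) := by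
  apply continuous_parametric_intervalIntegral_of_continuous' (f := fun y x => g (x, y))
  exact hg.comp (continuous_snd.prodMk continuous_fst)

theorem cin' {g : ℝ × ℝ → ℝ} (hg : Continuous g) (a b : ℝ) :
    Continuous fun x => ∫ y in a..b, g (x, y) := by
  apply continuous_parametric_intervalIntegral_of_continuous' (f := fun x y => g (x, y))
  exact hg

theorem cx {g : ℝ × ℝ → ℝ} (hg : Continuous g) (y : ℝ) : Continuous fun x => g (x, y) := by
  fun_prop

theorem cy {g : ℝ × ℝ → ℝ} (hg : Continuous g) (x : ℝ) : Continuous fun y => g (x, y) := by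
  fun_prop

theorem D_swap {g : ℝ × ℝ → ℝ} (hg : Continuous g) (a b c d : ℝ) :
    D a b c d g = ∫ x in a..b, ∫ y in c..d, g (x, y) := by
  unfold D
  symm
  apply intervalIntegral_intervalIntegral_swap (F := fun x y => g (x, y))
  have h1 : IntegrableOn g (uIcc a b ×ˢ uIcc c d) :=
    hg.continuousOn.integrableOn_compact (isCompact_uIcc.prod isCompact_uIcc)
  exact h1.mono_set (Set.prod_mono uIoc_subset_uIcc uIoc_subset_uIcc)

theorem D_add {g h : ℝ × ℝ → ℝ} (hg : Continuous g) (hh : Continuous h) (a b c d : ℝ) :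
    D a b c d (fun p => g p + h p) = D a b c d g + D a b c d h := by
  unfold D
  rw [← intervalIntegral.integral_add ((cin hg a b).intervalIntegrable _ _) ((cin hh a b).intervalIntegrable _ _)]
  refine integral_congr fun y _ => ?_
  exact intervalIntegral.integral_add ((cx hg y).intervalIntegrable _ _) ((cx hh y).intervalIntegrable _ _)

theorem D_mul (g : ℝ × ℝ → ℝ) (a b c d k : ℝ) :
    D a b c d (fun p => k * g p) = k * D a b c d g := by
  unfold D
  rw [← intervalIntegral.integral_const_mul]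
  refine integral_congr fun y _ => ?_
  exact intervalIntegral.integral_const_mul _ _

theorem D_mono {g h : ℝ × ℝ → ℝ} (hg : Continuous g) (hh : Continuous h) {a b c d : ℝ}
    (hab : a ≤ b) (hcd : c ≤ d) (H : ∀ p, g p ≤ h p) : D a b c d g ≤ D a b c d h := by
  unfold D
  refine integral_mono_on hcd ((cin hg a b).intervalIntegrable _ _)
    ((cin hh a b).intervalIntegrable _ _) fun y _ => ?_
  exact integral_mono_on hab ((cx hg y).intervalIntegrable _ _)
    ((cx hh y).intervalIntegrable _ _) fun x _ => H _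

theorem exp_sq {g : ℝ → ℝ} (hg : Continuous g) (a b c : ℝ) :
    ∫ x in a..b, (c - g x) ^ 2
      = (b - a) * c ^ 2 - 2 * c * (∫ x in a..b, g x) + ∫ x in a..b, g x ^ 2 := by
  have h1 : ∀ x, (c - g x) ^ 2 = (c ^ 2 - 2 * c * g x) + g x ^ 2 := fun x => by ring
  simp_rw [h1]
  rw [intervalIntegral.integral_add, intervalIntegral.integral_sub, intervalIntegral.integral_const_mul,
    intervalIntegral.integral_const, smul_eq_mul]
  all_goals apply Continuous.intervalIntegrable; fun_prop

/-- the Cauchy-Schwarz inequality -/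
theorem cs {g : ℝ → ℝ} (hg : Continuous g) {a b : ℝ} (hab : a ≤ b) :
    (∫ x in a..b, g x) ^ 2 ≤ (b - a) * ∫ x in a..b, g x ^ 2 := by
  rcases hab.eq_or_lt with h | h
  · rw [← h]
    simp
  · have h0 : 0 < b - a := sub_pos.mpr h
    have h1 : 0 ≤ ∫ x in a..b, ((∫ x in a..b, g x) / (b - a) - g x) ^ 2 :=
      integral_nonneg hab fun x _ => sq_nonneg _
    rw [exp_sq hg] at h1
    set I := ∫ x in a..b, g x
    set J := ∫ x in a..b, g x ^ 2
    have h2 : (b - a) * ((b - a) * (I / (b - a)) ^ 2 - 2 * (I / (b - a)) * I + J)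
        = (b - a) * J - I ^ 2 := by
      field_simp
      ring
    have h3 := mul_nonneg h0.le h1
    rw [h2] at h3
    linarith

theorem vari {g : ℝ → ℝ} (hg : Continuous g) {a b C : ℝ} (hab : a < b)
    (hC : ∀ x ∈ Icc a b, ∀ y ∈ Icc a b, (g x - g y) ^ 2 ≤ C) :
    ∫ x in a..b, g x ^ 2 ≤ (b - a) / 2 * C + (∫ x in a..b, g x) ^ 2 / (b - a) := by
  have h0 : 0 < b - a := sub_pos.mpr hab
  have h1 : ∀ x ∈ Icc a b, (b - a) * g x ^ 2 - 2 * g x * (∫ y in a..b, g y)
      + (∫ y in a..b, g y ^ 2) ≤ (b - a) * C := by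
    intro x hx
    rw [← exp_sq hg]
    have h2 : ∫ y in a..b, (g x - g y) ^ 2 ≤ ∫ _y in a..b, C :=
      integral_mono_on hab.le (by apply Continuous.intervalIntegrable; fun_prop)
        (by apply Continuous.intervalIntegrable; fun_prop) fun y hy => hC x hx y hy
    rwa [intervalIntegral.integral_const, smul_eq_mul] at h2
  set I := ∫ x in a..b, g x with hI
  set J := ∫ x in a..b, g x ^ 2 with hJ
  have h3 : ∫ x in a..b, ((b - a) * g x ^ 2 - 2 * g x * I + J) ≤ ∫ _x in a..b, (b - a) * C :=
    integral_mono_on hab.le (by apply Continuous.intervalIntegrable; fun_prop)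
      (by apply Continuous.intervalIntegrable; fun_prop) h1
  have h4 : ∫ x in a..b, ((b - a) * g x ^ 2 - 2 * g x * I + J)
      = (b - a) * J - 2 * I * I + (b - a) * J := by
    have h5 : ∀ x, (b - a) * g x ^ 2 - 2 * g x * I + J
        = ((b - a) * g x ^ 2 - (2 * I) * g x) + J := fun x => by ring
    simp_rw [h5]
    rw [intervalIntegral.integral_add, intervalIntegral.integral_sub, intervalIntegral.integral_const_mul,
      intervalIntegral.integral_const_mul, intervalIntegral.integral_const, smul_eq_mul]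
    all_goals apply Continuous.intervalIntegrable; fun_prop
  rw [h4, intervalIntegral.integral_const, smul_eq_mul] at h3
  have h6 : (b - a) / 2 * C + I ^ 2 / (b - a)
      = ((b - a) * ((b - a) * C) + 2 * I * I) / (2 * (b - a)) := by
    field_simp
  rw [h6, le_div_iff₀ (by positivity)]
  linarith

theorem inc {g g' : ℝ → ℝ} (h : ∀ x, HasDerivAt g (g' x) x) (hg' : Continuous g') {a b : ℝ} :
    ∀ x ∈ Icc a b, ∀ y ∈ Icc a b, (g x - g y) ^ 2 ≤ (b - a) * ∫ t in a..b, g' t ^ 2 := by
  have key : ∀ x ∈ Icc a b, ∀ y ∈ Icc a b, y ≤ x →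
      (g x - g y) ^ 2 ≤ (b - a) * ∫ t in a..b, g' t ^ 2 := by
    intro x hx y hy hyx
    rw [← integral_eq_sub_of_hasDerivAt (fun t _ => h t) (hg'.intervalIntegrable y x)]
    refine (cs hg' hyx).trans ?_
    have h1 : ∫ t in y..x, g' t ^ 2 ≤ ∫ t in a..b, g' t ^ 2 :=
      integral_mono_interval hy.1 hyx hx.2 (Filter.Eventually.of_forall fun t => sq_nonneg _)
        (by apply Continuous.intervalIntegrable; fun_prop)
    have h2 : 0 ≤ ∫ t in y..x, g' t ^ 2 := integral_nonneg hyx fun t _ => sq_nonneg _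
    have h3 : x - y ≤ b - a := by linarith [hx.2, hy.1]
    exact mul_le_mul h3 h1 h2 (by linarith [hx.1, hx.2])
  intro x hx y hy
  rcases le_total y x with h1 | h1
  · exact key x hx y hy h1
  · have := key y hy x hx h1
    rwa [show (g x - g y) ^ 2 = (g y - g x) ^ 2 by ring]

theorem rect {F Fx Fy : ℝ × ℝ → ℝ} (hF : Continuous F) (hFx : Continuous Fx) (hFy : Continuous Fy)
    (hx : ∀ x y, HasDerivAt (fun t => F (t, y)) (Fx (x, y)) x)
    (hy : ∀ x y, HasDerivAt (fun t => F (x, t)) (Fy (x, y)) y)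
    {a b c d : ℝ} (hab : a < b) (hcd : c < d) (h0 : D a b c d F = 0) :
    D a b c d (fun p => F p ^ 2) ≤ (b - a) ^ 2 / 2 * D a b c d (fun p => Fx p ^ 2)
      + (d - c) ^ 2 / 2 * D a b c d (fun p => Fy p ^ 2) := by
  have hba : 0 < b - a := sub_pos.mpr hab
  have hdc : 0 < d - c := sub_pos.mpr hcd
  set m : ℝ → ℝ := fun y => ∫ x in a..b, F (x, y) with hm
  have hmc : Continuous m := cin hF a b
  have h1 : ∀ y, ∫ x in a..b, F (x, y) ^ 2
      ≤ (b - a) ^ 2 / 2 * (∫ x in a..b, Fx (x, y) ^ 2) + (1 / (b - a)) * m y ^ 2 := by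
    intro y
    refine (vari (cx hF y) hab (inc (fun x => hx x y) (cx hFx y))).trans (le_of_eq ?_)
    rw [hm]
    ring
  have h2 : D a b c d (fun p => F p ^ 2)
      ≤ (b - a) ^ 2 / 2 * D a b c d (fun p => Fx p ^ 2) + (1 / (b - a)) * ∫ y in c..d, m y ^ 2 := by
    unfold D
    rw [← intervalIntegral.integral_const_mul, ← intervalIntegral.integral_const_mul,
      ← intervalIntegral.integral_add]
    · refine integral_mono_on hcd.le ?_ ?_ fun y _ => h1 y
      · exact (cin (g := fun p => F p ^ 2) (by fun_prop) a b).intervalIntegrable _ _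
      · apply Continuous.intervalIntegrable
        have := cin (g := fun p => Fx p ^ 2) (by fun_prop) a b
        exact (continuous_const.mul this).add (continuous_const.mul (hmc.pow 2))
    · apply Continuous.intervalIntegrable
      exact continuous_const.mul (cin (g := fun p => Fx p ^ 2) (by fun_prop) a b)
    · apply Continuous.intervalIntegrable
      exact continuous_const.mul (hmc.pow 2)
  set E := D a b c d (fun p => Fy p ^ 2) with hE
  have h3 : ∀ y ∈ Icc c d, ∀ y' ∈ Icc c d, (m y - m y') ^ 2 ≤ (b - a) * ((d - c) * E) := by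
    intro y hy1 y' hy2
    have h4 : m y - m y' = ∫ x in a..b, (F (x, y) - F (x, y')) := by
      rw [hm]
      exact (intervalIntegral.integral_sub ((cx hF y).intervalIntegrable _ _)
        ((cx hF y').intervalIntegrable _ _)).symm
    rw [h4]
    refine (cs ((cx hF y).sub (cx hF y')) hab.le).trans ?_
    refine mul_le_mul_of_nonneg_left ?_ hba.le
    rw [hE, D_swap (by fun_prop), ← intervalIntegral.integral_const_mul]
    refine integral_mono_on hab.le ?_ ?_ fun x _ => ?_
    · apply Continuous.intervalIntegrable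
      exact ((cx hF y).sub (cx hF y')).pow 2
    · apply Continuous.intervalIntegrable
      exact continuous_const.mul (cin' (g := fun p => Fy p ^ 2) (by fun_prop) c d)
    · exact inc (fun t => hy x t) (cy hFy x) y hy1 y' hy2
  have h5 := vari hmc hcd h3
  have h6 : ∫ y in c..d, m y = 0 := h0
  rw [h6] at h5
  have h7 : (1 / (b - a)) * ∫ y in c..d, m y ^ 2 ≤ (d - c) ^ 2 / 2 * E := by
    refine (mul_le_mul_of_nonneg_left h5 (by positivity)).trans (le_of_eq ?_)
    field_simp
    ring
  linarith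

theorem D_split {g : ℝ × ℝ → ℝ} (hg : Continuous g) (L P : ℝ) {n : ℕ} (hn : 0 < n) :
    D 0 L 0 P g = ∑ j ∈ Finset.range n, ∑ i ∈ Finset.range n,
      D ((i : ℝ) * (L / n)) (((i : ℝ) + 1) * (L / n)) ((j : ℝ) * (P / n))
        (((j : ℝ) + 1) * (P / n)) g := by
  have hn0 : (n : ℝ) ≠ 0 := Nat.cast_ne_zero.mpr hn.ne'
  have hx : ∀ y, ∫ x in (0 : ℝ)..L, g (x, y) = ∑ i ∈ Finset.range n,
      ∫ x in ((i : ℝ) * (L / n))..(((i : ℝ) + 1) * (L / n)), g (x, y) := by
    intro y
    have h1 := sum_integral_adjacent_intervals (μ := volume) (f := fun x => g (x, y))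
      (a := fun i : ℕ => (i : ℝ) * (L / n)) (n := n)
      (fun k _ => (cx hg y).intervalIntegrable _ _)
    simp only [Nat.cast_zero, zero_mul, Nat.cast_add, Nat.cast_one] at h1
    rw [mul_div_cancel₀ _ hn0] at h1
    exact h1.symm
  have h2 : D 0 L 0 P g = ∑ j ∈ Finset.range n,
      ∫ y in ((j : ℝ) * (P / n))..(((j : ℝ) + 1) * (P / n)), ∫ x in (0 : ℝ)..L, g (x, y) := by
    have h1 := sum_integral_adjacent_intervals (μ := volume)
      (f := fun y => ∫ x in (0 : ℝ)..L, g (x, y))
      (a := fun i : ℕ => (i : ℝ) * (P / n)) (n := n)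
      (fun k _ => (cin hg 0 L).intervalIntegrable _ _)
    simp only [Nat.cast_zero, zero_mul, Nat.cast_add, Nat.cast_one] at h1
    rw [mul_div_cancel₀ _ hn0] at h1
    exact h1.symm
  rw [h2]
  refine Finset.sum_congr rfl fun j _ => ?_
  unfold D
  rw [← intervalIntegral.integral_finsetSum]
  · exact integral_congr fun y _ => hx y
  · intro i _
    exact (cin hg _ _).intervalIntegrable _ _

theorem dx_smooth {G : ℝ × ℝ → ℝ} (hG : ContDiff ℝ ∞ G) : ContDiff ℝ ∞ (dx G) :=
  (hG.fderiv_right (m := ∞) le_rfl).clm_apply contDiff_const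

theorem dy_smooth {G : ℝ × ℝ → ℝ} (hG : ContDiff ℝ ∞ G) : ContDiff ℝ ∞ (dy G) :=
  (hG.fderiv_right (m := ∞) le_rfl).clm_apply contDiff_const

theorem dx_deriv {G : ℝ × ℝ → ℝ} (hG : ContDiff ℝ ∞ G) (x y : ℝ) :
    HasDerivAt (fun t => G (t, y)) (dx G (x, y)) x := by
  have h1 : HasFDerivAt G (fderiv ℝ G (x, y)) (x, y) :=
    (hG.differentiable (by simp) (x, y)).hasFDerivAt
  exact h1.comp_hasDerivAt x ((hasDerivAt_id x).prodMk (hasDerivAt_const x y))

theorem dy_deriv {G : ℝ × ℝ → ℝ} (hG : ContDiff ℝ ∞ G) (x y : ℝ) :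
    HasDerivAt (fun t => G (x, t)) (dy G (x, y)) y := by
  have h1 : HasFDerivAt G (fderiv ℝ G (x, y)) (x, y) :=
    (hG.differentiable (by simp) (x, y)).hasFDerivAt
  exact h1.comp_hasDerivAt y ((hasDerivAt_const y x).prodMk (hasDerivAt_id y))

/-- a continuous nonnegative function with integral zero vanishes -/
theorem zero_of_int {g : ℝ → ℝ} (hg : Continuous g) (h0 : ∀ x, 0 ≤ g x) {a b : ℝ} (hab : a < b)
    (h : ∫ x in a..b, g x = 0) : ∀ x ∈ Icc a b, g x = 0 := by
  intro x hx
  by_contra hne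
  have h1 : 0 < ∫ x in a..b, g x :=
    integral_pos hab hg.continuousOn (fun x _ => h0 x) ⟨x, hx, lt_of_le_of_ne (h0 x) (Ne.symm hne)⟩
  exact h1.ne' h

theorem dim : S_DIM := by
  intro L P K q r hL hP hK hq hr hqr n hKL hKP F hSol hmean
  obtain ⟨hF, hpx, hpy, heq⟩ := hSol
  have hn : 0 < n := by
    have : (0 : ℝ) < n := lt_trans (mul_pos hK hL) hKL
    exact_mod_cast this
  have hn0 : (0 : ℝ) < n := by exact_mod_cast hn
  have hFc : Continuous F := hF.continuous
  have hFx := dx_smooth hF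
  have hFy := dy_smooth hF
  have hFxx := dx_smooth hFx
  have hFyy := dy_smooth hFy
  have hFxc := hFx.continuous
  have hFyc := hFy.continuous
  have hFxxc := hFxx.continuous
  have hFyyc := hFyy.continuous
  set Z := D 0 L 0 P (fun p => F p ^ 2) with hZ
  set X := D 0 L 0 P (fun p => dx F p ^ 2) with hX
  set Y := D 0 L 0 P (fun p => dy F p ^ 2) with hY
  have hs : 0 < L / n := div_pos hL hn0
  have hs' : 0 < P / n := div_pos hP hn0
  -- Poincare
  have h1 : Z ≤ (L / n) ^ 2 / 2 * X + (P / n) ^ 2 / 2 * Y := by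
    rw [hZ, hX, hY, D_split (by fun_prop) L P hn, D_split (by fun_prop) L P hn,
      D_split (by fun_prop) L P hn, Finset.mul_sum, Finset.mul_sum, ← Finset.sum_add_distrib]
    refine Finset.sum_le_sum fun j hj => ?_
    rw [Finset.mul_sum, Finset.mul_sum, ← Finset.sum_add_distrib]
    refine Finset.sum_le_sum fun i hi => ?_
    have h2 := rect hFc hFxc hFyc (dx_deriv hF) (dy_deriv hF)
      (a := (i : ℝ) * (L / n)) (b := ((i : ℝ) + 1) * (L / n)) (c := (j : ℝ) * (P / n))
      (d := ((j : ℝ) + 1) * (P / n)) (by linarith) (by linarith)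
      (hmean i (Finset.mem_range.mp hi) j (Finset.mem_range.mp hj))
    have e1 : ((i : ℝ) + 1) * (L / n) - (i : ℝ) * (L / n) = L / n := by ring
    have e2 : ((j : ℝ) + 1) * (P / n) - (j : ℝ) * (P / n) = P / n := by ring
    rw [e1, e2] at h2
    exact h2
  -- energy
  have hper1 : ∀ y, dx F (L, y) = dx F (0, y) := by
    intro y
    have h2 : HasDerivAt (fun t => F (t + L, y)) (dx F (0 + L, y)) 0 :=
      (dx_deriv hF (0 + L) y).comp_add_const 0 L
    have h3 : (fun t => F (t + L, y)) = fun t => F (t, y) := funext fun t => hpx t y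
    rw [h3, zero_add] at h2
    exact h2.unique (dx_deriv hF 0 y)
  have hper2 : ∀ x, dy F (x, P) = dy F (x, 0) := by
    intro x
    have h2 : HasDerivAt (fun t => F (x, t + P)) (dy F (x, 0 + P)) 0 :=
      (dy_deriv hF x (0 + P)).comp_add_const 0 P
    have h3 : (fun t => F (x, t + P)) = fun t => F (x, t) := funext fun t => hpy x t
    rw [h3, zero_add] at h2
    exact h2.unique (dy_deriv hF x 0)
  have hex : D 0 L 0 P (fun p => dx F p * dx F p + F p * dx (dx F) p) = 0 := by
    unfold D
    have h2 : ∀ y, ∫ x in (0 : ℝ)..L, (dx F (x, y) * dx F (x, y) + F (x, y) * dx (dx F) (x, y))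
        = 0 := by
      intro y
      rw [integral_eq_sub_of_hasDerivAt
        (fun x _ => (dx_deriv hF x y).fun_mul (dx_deriv hFx x y))
        (by apply Continuous.intervalIntegrable; fun_prop)]
      have h3 := hpx 0 y
      rw [zero_add] at h3
      rw [hper1, h3, sub_self]
    simp_rw [h2]
    simp
  have hey : D 0 L 0 P (fun p => dy F p * dy F p + F p * dy (dy F) p) = 0 := by
    rw [D_swap (by fun_prop)]
    have h2 : ∀ x, ∫ y in (0 : ℝ)..P, (dy F (x, y) * dy F (x, y) + F (x, y) * dy (dy F) (x, y))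
        = 0 := by
      intro x
      rw [integral_eq_sub_of_hasDerivAt
        (fun y _ => (dy_deriv hF x y).fun_mul (dy_deriv hFy x y))
        (by apply Continuous.intervalIntegrable; fun_prop)]
      have h3 := hpy x 0
      rw [zero_add] at h3
      rw [hper2, h3, sub_self]
    simp_rw [h2]
    simp
  have h4 : X + Y ≤ K ^ 2 * Z := by
    have h5 : D 0 L 0 P (fun p => (dx F p ^ 2 + dy F p ^ 2) + (-K ^ 2) * F p ^ 2)
        ≤ D 0 L 0 P (fun p => (dx F p * dx F p + F p * dx (dx F) p)
          + (dy F p * dy F p + F p * dy (dy F) p)) := by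
      refine D_mono (by fun_prop) (by fun_prop) hL.le hP.le ?_
      rintro ⟨x, y⟩
      have h6 := heq x y
      have h7 := mul_le_mul_of_nonneg_right (hqr x y) (sq_nonneg (F (x, y)))
      have h8 : F (x, y) * (dx (dx F) (x, y) + dy (dy F) (x, y) + (q x + r y) * F (x, y)) = 0 := by
        rw [h6, mul_zero]
      nlinarith
    rw [D_add (g := fun p => dx F p ^ 2 + dy F p ^ 2) (h := fun p => (-K ^ 2) * F p ^ 2)
      (by fun_prop) (by fun_prop), D_add (g := fun p => dx F p ^ 2) (h := fun p => dy F p ^ 2)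
      (by fun_prop) (by fun_prop), D_mul (fun p => F p ^ 2),
      D_add (g := fun p => dx F p * dx F p + F p * dx (dx F) p)
        (h := fun p => dy F p * dy F p + F p * dy (dy F) p) (by fun_prop) (by fun_prop),
      hex, hey] at h5
    linarith
  have hX0 : 0 ≤ X := integral_nonneg hP.le fun y _ => integral_nonneg hL.le fun x _ => sq_nonneg _
  have hY0 : 0 ≤ Y := integral_nonneg hP.le fun y _ => integral_nonneg hL.le fun x _ => sq_nonneg _
  have hZ0 : 0 ≤ Z := integral_nonneg hP.le fun y _ => integral_nonneg hL.le fun x _ => sq_nonneg _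
  have hZz : Z = 0 := by
    have a1 : (L / n) ^ 2 * K ^ 2 ≤ 1 := by
      have : L / n * K ≤ 1 := by
        rw [div_mul_eq_mul_div, div_le_one hn0]
        linarith
      have h9 : 0 ≤ L / n * K := by positivity
      nlinarith
    have a2 : (P / n) ^ 2 * K ^ 2 ≤ 1 := by
      have : P / n * K ≤ 1 := by
        rw [div_mul_eq_mul_div, div_le_one hn0]
        linarith
      have h9 : 0 ≤ P / n * K := by positivity
      nlinarith
    have h10 : K ^ 2 * Z ≤ (X + Y) / 2 := by
      have h11 := mul_le_mul_of_nonneg_left h1 (sq_nonneg K)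
      have h12 := mul_le_mul_of_nonneg_right a1 hX0
      have h13 := mul_le_mul_of_nonneg_right a2 hY0
      nlinarith
    have h14 : K ^ 2 * Z ≤ 0 := by linarith
    have h15 : 0 < K ^ 2 := by positivity
    nlinarith
  -- the function vanishes on the rectangle
  have h16 : ∀ y ∈ Icc 0 P, ∀ x ∈ Icc 0 L, F (x, y) = 0 := by
    intro y hy x hx
    have h17 := zero_of_int (cin (g := fun p => F p ^ 2) (by fun_prop) 0 L)
      (fun y => integral_nonneg hL.le fun x _ => sq_nonneg _) hP hZz y hy
    have h18 := zero_of_int (g := fun x => F (x, y) ^ 2) (by fun_prop) (fun x => sq_nonneg _) hL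
      h17 x hx
    exact pow_eq_zero_iff two_ne_zero |>.mp h18
  rintro ⟨x, y⟩
  have hp1 : Function.Periodic (fun x => F (x, y)) L := fun x => hpx x y
  obtain ⟨x', hx', hxe⟩ := hp1.exists_mem_Ico₀ hL x
  have hp2 : Function.Periodic (fun y => F (x', y)) P := fun y => hpy x' y
  obtain ⟨y', hy', hye⟩ := hp2.exists_mem_Ico₀ hP y
  have e1 : F (x, y) = F (x', y) := hxe
  have e2 : F (x', y) = F (x', y') := hye
  rw [e1, e2]
  exact h16 y' ⟨hy'.1, hy'.2.le⟩ x' ⟨hx'.1, hx'.2.le⟩

end Pool.Agent.H70NL
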